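import Mathlib
import Pool.Agent.T2H54.DD.Core4

/-!
# MP_77c30a_nt: the integer content of double discriminants

Parts (a), (b) and (c) of the question hold.  In fact `c_{n,0} = 2 ^ (4 * ⌊(n-1)/2⌋)` and, for
`1 ≤ k ≤ n - 1` and `m = n - k`,
`c_{n,k} = 16 * 2 ^ (4 * ⌊(k-1)/2⌋ + 4 * ⌊(m-1)/2⌋) * gcd(k ^ k, m ^ m) ^ 2`
(theorem `content_pos` below).

Idea of the proof.  For a prime `p` take a valuation ring `V`, dominating the localisation of
`ℤ[a_0, a_1, …]` at `(p)`, of the algebraic closure of the fraction field, and factor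
`D_n = b * ∏ (a_k - y_j)` over the critical points `x_j` of `Σ_{i ≠ k} a_i x ^ (i - k)`.
At most one critical point is not integral and at most one is not invertible in `V`; at every other
critical point the polynomial with its double root `x_j` has a cofactor whose residue does not
vanish at any residue of a critical point, because the residues of the `a_i` are algebraically
independent.  This gives the valuations of all products of differences of the `y_j`.
-/

set_option autoImplicit false

namespace Pool.Agent.Results.MP_77c30a_nt.ContentOfDoubleDisc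

open Polynomial

/-- The generic polynomial `f(x) = Σ_{i ≤ n} a_i x^i`, with `a_i = MvPolynomial.X i`. -/
noncomputable def genericPoly (n : ℕ) : Polynomial (MvPolynomial ℕ ℤ) :=
  ∑ i ∈ Finset.range (n + 1), monomial i (MvPolynomial.X i)

/-- The discriminant `D_n = disc_x f`. -/
noncomputable def D (n : ℕ) : MvPolynomial ℕ ℤ := (genericPoly n).discr

/-- An element of `ℤ[a_0, a_1, …]` regarded as a polynomial in the single variable `a_k`:
the ring homomorphism with `a_k ↦ X` and `a_i ↦ C a_i` for `i ≠ k`. -/
noncomputable def asPolyIn (k : ℕ) : MvPolynomial ℕ ℤ →+* Polynomial (MvPolynomial ℕ ℤ) :=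
  MvPolynomial.eval₂Hom ((C : MvPolynomial ℕ ℤ →+* Polynomial (MvPolynomial ℕ ℤ)).comp
    MvPolynomial.C) (fun i => if i = k then X else C (MvPolynomial.X i))

/-- The double discriminant `DD_{n,k} = disc_{a_k} D_n`. -/
noncomputable def DD (n k : ℕ) : MvPolynomial ℕ ℤ := (asPolyIn k (D n)).discr

/-- The content `c_{n,k}`: the greatest common divisor of all integer coefficients of
`DD_{n,k}`. -/
noncomputable def c (n k : ℕ) : ℕ :=
  (DD n k).support.gcd fun m => ((DD n k).coeff m).natAbs

open Pool.Agent.T2H54.DD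

theorem asPolyIn_injective (k : ℕ) : Function.Injective (asPolyIn k) := by
  have h : (Polynomial.evalRingHom (MvPolynomial.X k)).comp (asPolyIn k)
      = RingHom.id (MvPolynomial ℕ ℤ) := by
    apply MvPolynomial.ringHom_ext
    · intro r
      simp [asPolyIn]
    · intro i
      simp only [asPolyIn, RingHom.comp_apply, MvPolynomial.coe_eval₂Hom, MvPolynomial.eval₂_X,
        RingHom.id_apply]
      split_ifs with hi
      · simp [hi]
      · simp
  intro u w huw
  have h1 := congrArg (Polynomial.evalRingHom (MvPolynomial.X k)) huw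
  have h2 : ∀ u, Polynomial.evalRingHom (MvPolynomial.X k) (asPolyIn k u) = u := fun u =>
    congrArg (fun g => g u) h
  rw [h2, h2] at h1
  exact h1

theorem genericPoly_map (n k : ℕ) :
    (genericPoly n).map (asPolyIn k)
      = fP (fun i => (C (MvPolynomial.X i) : (MvPolynomial ℕ ℤ)[X])) n k X := by
  unfold genericPoly fP
  rw [Polynomial.map_sum]
  refine Finset.sum_congr rfl (fun i _ => ?_)
  rw [map_monomial]
  simp [asPolyIn]

theorem asPolyIn_D (n k : ℕ) :
    asPolyIn k (D n)
      = (fP (fun i => (C (MvPolynomial.X i) : (MvPolynomial ℕ ℤ)[X])) n k X).discr := by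
  unfold D
  rw [← genericPoly_map, discr_map_of_injective _ (asPolyIn_injective k)]

section field

variable {K : Type} [Field K] (φ : MvPolynomial ℕ ℤ →+* K)

theorem map_asPolyIn_D (hφ : Function.Injective φ) (n k : ℕ) :
    (asPolyIn k (D n)).map φ = (fP (fun i => C (aK φ i)) n k (X : K[X])).discr := by
  rw [asPolyIn_D]
  have hinj : Function.Injective (mapRingHom φ) := Polynomial.map_injective φ hφ
  have h := discr_map_of_injective (mapRingHom φ) hinj
    (fP (fun i => (C (MvPolynomial.X i) : (MvPolynomial ℕ ℤ)[X])) n k X)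
  rw [fP_map] at h
  simp only [coe_mapRingHom, map_X, map_C] at h
  rw [← h]
  rfl

theorem phi_DD (hφ : Function.Injective φ) (n k : ℕ) :
    φ (DD n k) = (fP (fun i => C (aK φ i)) n k (X : K[X])).discr.discr := by
  unfold DD
  rw [← map_asPolyIn_D φ hφ, discr_map_of_injective φ hφ]

end field

/-- The content, in a form uniform in `k`. -/
theorem content_eq {n k : ℕ} (hn : 2 ≤ n) (hk : k < n) :
    c n k = 4 ^ ((if k = 0 then n - 1 else n) - numSp 2 n k)
      * Nat.gcd (k ^ k) ((n - k) ^ (n - k)) ^ 2 := by
  let A := MvPolynomial ℕ ℤ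
  let K := AlgebraicClosure (FractionRing A)
  let φ : A →+* K := (algebraMap (FractionRing A) K).comp (algebraMap A (FractionRing A))
  have hφ : Function.Injective φ :=
    (algebraMap (FractionRing A) K).injective.comp (IsFractionRing.injective A (FractionRing A))
  have hchar : CharZero K := charZero_of_injective φ hφ
  have ha : ∀ i, aK φ i ≠ 0 := by
    intro i h0
    have h1 : (MvPolynomial.X i : A) = 0 := (map_eq_zero_iff φ hφ).mp h0
    exact MvPolynomial.X_ne_zero i h1
  obtain ⟨d, ε, x, cc, H⟩ := exists_rootData ha hn hk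
  have hd : Fintype.card (Fin d) = if k = 0 then n - 1 else n := by
    have h1 := H.card
    rcases H.hε with ⟨h2, h3⟩ | ⟨h2, h3⟩
    · rw [if_pos h2]
      omega
    · rw [if_neg h2.ne']
      omega
  refine intContent_eq φ hφ (DD n k) _ ?_ ?_
  · refine mul_ne_zero (pow_ne_zero _ (by norm_num)) (pow_ne_zero _ ?_)
    intro h0
    have h1 := (Nat.gcd_eq_zero_iff.mp h0).2
    have h2 : 0 < n - k := by omega
    exact (pow_pos h2 _).ne' h1
  · intro p hp V hV
    rw [phi_DD φ hφ, val_discr_discr hp hV H, hd]

/-- The exact value for `k = 0`. -/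
theorem content_zero {n : ℕ} (hn : 2 ≤ n) : c n 0 = 2 ^ (4 * ((n - 1) / 2)) := by
  rw [content_eq hn (by omega)]
  have h1 : Nat.gcd (0 ^ 0) ((n - 0) ^ (n - 0)) = 1 := by simp
  rw [h1, one_pow, mul_one, if_pos rfl, show (4 : ℕ) = 2 ^ 2 by norm_num, ← pow_mul]
  congr 1
  unfold numSp
  rw [if_neg (by omega)]
  split_ifs <;> omega

/-- The exact value for `1 ≤ k ≤ n - 1`. -/
theorem content_pos {n k : ℕ} (hk0 : 1 ≤ k) (hk : k < n) :
    c n k = 16 * 2 ^ (4 * ((k - 1) / 2) + 4 * ((n - k - 1) / 2))
      * Nat.gcd (k ^ k) ((n - k) ^ (n - k)) ^ 2 := by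
  rw [content_eq (by omega) hk, show (16 : ℕ) = 2 ^ 4 by norm_num, ← pow_add, if_neg (by omega)]
  congr 1
  rw [show (4 : ℕ) = 2 ^ 2 by norm_num, ← pow_mul]
  congr 1
  unfold numSp
  split_ifs <;> omega

theorem content_pos_factor {n k : ℕ} (hk0 : 1 ≤ k) (hk : k < n) :
    c n k = 2 ^ (4 * (1 + (k - 1) / 2 + (n - k - 1) / 2))
      * Nat.gcd (k ^ k) ((n - k) ^ (n - k)) ^ 2 := by
  rw [content_pos hk0 hk, show (16 : ℕ) = 2 ^ 4 by norm_num, ← pow_add]
  congr 2
  ring

/-- `p` divides the `p`-adic valuation of `k ^ k`. -/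
theorem dvd_factorization_self_pow (p k : ℕ) : p ∣ (k ^ k).factorization p := by
  rw [Nat.factorization_pow, Finsupp.smul_apply, smul_eq_mul]
  by_cases h : p ∣ k
  · exact Dvd.dvd.mul_right h _
  · rw [Nat.factorization_eq_zero_of_not_dvd h, mul_zero]
    exact dvd_zero p

/-- **Full answer to Q1.**  For all `n ≥ 2` and `0 ≤ k ≤ n / 2`, the content `c_{n,k}` is positive
and (a), (b), (c) hold. -/
theorem result (n k : ℕ) (hn : 2 ≤ n) (hk : 2 * k ≤ n) :
    0 < c n k ∧
    -- (a)
    ((1 ≤ k → ∀ p : ℕ, p.Prime → (p ∣ c n k ↔ p ∣ 2 * Nat.gcd k n)) ∧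
      (k = 0 → c n k = 2 ^ (4 * ((n - 1) / 2)))) ∧
    -- (b)
    (4 * ((n - 1) / 2) ≤ padicValNat 2 (c n k) ∧
      (k = 0 → padicValNat 2 (c n k) = 4 * ((n - 1) / 2))) ∧
    -- (c)
    (∀ p : ℕ, p.Prime → 2 * p ∣ padicValNat p (c n k)) := by
  rcases Nat.eq_zero_or_pos k with h0 | h0
  · subst h0
    rw [content_zero hn]
    refine ⟨by positivity, ⟨fun h => by omega, fun _ => rfl⟩, ⟨?_, fun _ => ?_⟩, ?_⟩
    · rw [padicValNat.prime_pow]
    · rw [padicValNat.prime_pow]
    · intro p hp
      by_cases h2 : p = 2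
      · subst h2
        rw [padicValNat.prime_pow]
        exact ⟨(n - 1) / 2, by ring⟩
      · have h3 : Nat.factorization 2 p = 0 :=
          Nat.factorization_eq_zero_of_not_dvd
            (fun h => h2 ((Nat.prime_dvd_prime_iff_eq hp Nat.prime_two).mp h))
        rw [← Nat.factorization_def _ hp, Nat.factorization_pow, Finsupp.smul_apply, h3,
          smul_zero]
        exact dvd_zero _
  · have hkn : k < n := by omega
    have hr0 : n - k ≠ 0 := by omega
    have hK : k ^ k ≠ 0 := pow_ne_zero _ h0.ne'
    have hR : (n - k) ^ (n - k) ≠ 0 := pow_ne_zero _ hr0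
    set G := Nat.gcd (k ^ k) ((n - k) ^ (n - k)) with hG
    have hG0 : G ≠ 0 := Nat.gcd_ne_zero_left hK
    have hc := content_pos_factor h0 hkn
    rw [← hG] at hc
    have hfac : ∀ p, (c n k).factorization p
        = (4 * (1 + (k - 1) / 2 + (n - k - 1) / 2)) * (Nat.factorization 2 p)
          + 2 * G.factorization p := by
      intro p
      rw [hc, Nat.factorization_mul (pow_ne_zero _ two_ne_zero) (pow_ne_zero _ hG0),
        Nat.factorization_pow, Nat.factorization_pow]
      simp
    have hval : ∀ p : ℕ, p.Prime → padicValNat p (c n k) = (c n k).factorization p :=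
      fun p hp => (Nat.factorization_def _ hp).symm
    have hGp : ∀ p : ℕ, p ∣ G.factorization p := by
      intro p
      have h1 : G.factorization = (k ^ k).factorization ⊓ ((n - k) ^ (n - k)).factorization :=
        Nat.factorization_gcd hK hR
      rw [h1, Finsupp.inf_apply]
      rcases le_total ((k ^ k).factorization p) (((n - k) ^ (n - k)).factorization p) with h | h
      · rw [inf_eq_left.mpr h]
        exact dvd_factorization_self_pow p k
      · rw [inf_eq_right.mpr h]
        exact dvd_factorization_self_pow p (n - k)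
    have h22 : Nat.factorization 2 2 = 1 := by
      rw [Nat.Prime.factorization Nat.prime_two]
      simp
    refine ⟨?_, ⟨fun _ p hp => ?_, fun h => by omega⟩, ⟨?_, fun h => by omega⟩, ?_⟩
    · rw [hc]
      positivity
    · rw [hc]
      by_cases h2 : p = 2
      · subst h2
        constructor
        · intro _
          exact dvd_mul_right _ _
        · intro _
          refine Dvd.dvd.mul_right ?_ _
          exact dvd_pow_self 2 (by omega)
      · have hp2 : ¬ p ∣ 2 := fun h => h2 ((Nat.prime_dvd_prime_iff_eq hp Nat.prime_two).mp h)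
        have e1 : p ∣ 2 ^ (4 * (1 + (k - 1) / 2 + (n - k - 1) / 2)) * G ^ 2 ↔ p ∣ G := by
          constructor
          · intro h
            rcases hp.dvd_mul.mp h with h | h
            · exact absurd (hp.dvd_of_dvd_pow h) hp2
            · exact hp.dvd_of_dvd_pow h
          · intro h
            exact Dvd.dvd.mul_left (dvd_pow h two_ne_zero) _
        have e2 : p ∣ G ↔ p ∣ k ∧ p ∣ n - k := by
          rw [hG, Nat.dvd_gcd_iff]
          constructor
          · rintro ⟨h, h'⟩
            exact ⟨hp.dvd_of_dvd_pow h, hp.dvd_of_dvd_pow h'⟩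
          · rintro ⟨h, h'⟩
            exact ⟨dvd_pow h h0.ne', dvd_pow h' hr0⟩
        have e3 : p ∣ 2 * Nat.gcd k n ↔ p ∣ k ∧ p ∣ n := by
          rw [hp.dvd_mul, Nat.dvd_gcd_iff]
          constructor
          · rintro (h | h)
            · exact absurd h hp2
            · exact h
          · intro h
            exact Or.inr h
        rw [e1, e2, e3]
        constructor
        · rintro ⟨h, h'⟩
          refine ⟨h, ?_⟩
          have := dvd_add h h'
          rwa [Nat.add_sub_cancel' hkn.le] at this
        · rintro ⟨h, h'⟩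
          exact ⟨h, Nat.dvd_sub h' h⟩
    · rw [hval 2 Nat.prime_two, hfac, h22]
      omega
    · intro p hp
      rw [hval p hp, hfac]
      obtain ⟨t, ht⟩ := hGp p
      by_cases h2 : p = 2
      · subst h2
        rw [h22, ht]
        exact ⟨1 + (k - 1) / 2 + (n - k - 1) / 2 + t, by ring⟩
      · have h3 : Nat.factorization 2 p = 0 :=
          Nat.factorization_eq_zero_of_not_dvd
            (fun h => h2 ((Nat.prime_dvd_prime_iff_eq hp Nat.prime_two).mp h))
        rw [h3, ht, mul_zero, zero_add]
        exact ⟨t, by ring⟩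

end Pool.Agent.Results.MP_77c30a_nt.ContentOfDoubleDisc
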